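import Pool.Agent.N201.SQ.Final

/-!
# Many consecutive squares far from all primes, uniformly in the distance

No hypothesis is assumed.  Write `a_A(n)` for the number of primes `p` with `|p - n²| ≤ A`.  For all large `Y` and all
`M ≥ Y`:
* if `A H ≤ c log Y log log Y`, then for every set `K` of `H` integers of size at most `(log Y) ^ b` some `x` in `(M, M + Y]`
  has `a_A(x + k) = 0` for all `k ∈ K`;
* if `A ≤ (log Y) / 2` and `H ≤ √(log Y) / 4`, then some `x` in `(M, M + Y]` has `a_A(n) = 0` for all `x ≤ n < x + H`.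
In the second case up to a constant times `(log Y) ^ (3 / 2)` integers near the squares are composite at once, more than in
the known records for one square; and for all `A` the product `A H` exceeds the average by the factor `log log Y`.

For `A ≥ log Y` the same question (with the record length in place of `log Y log log Y`) is settled by
`MP_69be96_nt.ConsecutiveSquares` of the starting files, and for bounded `A` the first case follows from
`MP_a1177c_nt.SimultaneousComposites` (helper201).  For `A` and `H` growing together the values for different pairs `(k, a)` are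
those of the polynomials `(X + k)² + a`, with numbers of roots that depend on `a` and the prime.  The covering sieve has
densities depending on the pair (project SQ of helper256, helper378, helper426 and others), and before it the pairs with few
covering primes are removed by the small primes, chosen greedily for a weighted average over the whole set of pairs
(`N201.SQ.Avg2`).  In the second case `x` is divisible by all primes up to `0.6 log Y`, so that only the pairs with
`k² + a = ± 1` remain.
-/

set_option autoImplicit false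

namespace Pool.Agent.Results.MP_73869e_nt.ConsecutiveSquares

/-- no prime lies within `A` of `m` -/
def Isolated (A : ℕ) (m : ℤ) : Prop := ∀ q : ℕ, q.Prime → (A : ℤ) < |(q : ℤ) - m|

lemma isolated_of {A : ℕ} {m : ℤ} (h : ∀ a : ℤ, |a| ≤ A → ¬ (m + a).natAbs.Prime) : Isolated A m := by
  intro q hq
  by_contra hcon
  push Not at hcon
  apply h ((q : ℤ) - m) hcon
  have : m + ((q : ℤ) - m) = q := by ring
  rw [this, Int.natAbs_natCast]
  exact hq

/-- Let `b` be a natural number.  There are `c > 0` and `Y₀` such that for all real `Y ≥ Y₀`, all natural `M ≥ Y` and all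
`A, H ≥ 1`:
(1) if `A H ≤ c log Y log log Y`, then for every set `K` of `H` integers of absolute value at most `(log Y) ^ b` there is an
integer `x` in `(M, M + Y]` such that no prime lies within `A` of one of the squares `(x + k) ^ 2`, `k ∈ K`;
(2) if `A ≤ (log Y) / 2` and `H ≤ √(log Y) / 4`, there is an integer `x` in `(M, M + Y]` such that no prime lies within `A` of
one of the squares `n ^ 2`, `x ≤ n < x + H`. -/
theorem result (b : ℕ) : ∃ c : ℝ, 0 < c ∧ ∃ Y₀ : ℝ, ∀ Y : ℝ, Y₀ ≤ Y → ∀ M : ℕ, Y ≤ M →
    ∀ A H : ℕ, 1 ≤ A → 1 ≤ H →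
      ((A : ℝ) * H ≤ c * Real.log Y * Real.log (Real.log Y) →
        ∀ K : Finset ℤ, K.card = H → (∀ k ∈ K, |(k : ℝ)| ≤ (Real.log Y) ^ b) →
          ∃ x : ℤ, (M : ℤ) < x ∧ (x : ℝ) ≤ M + Y ∧ ∀ k ∈ K, Isolated A ((x + k) ^ 2)) ∧
      ((A : ℝ) ≤ Real.log Y / 2 → (H : ℝ) ≤ √(Real.log Y) / 4 →
        ∃ x : ℤ, (M : ℤ) < x ∧ (x : ℝ) ≤ M + Y ∧ ∀ n : ℤ, x ≤ n → n < x + H → Isolated A (n ^ 2)) := by
  obtain ⟨c, hc, hc1, Y₁, h₁⟩ := Pool.Agent.N201.SQ.rect b
  refine ⟨c, hc, max Y₁ (Real.exp 10000), fun Y hY M hYM A H hA hH => ?_⟩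
  have hY1 : Y₁ ≤ Y := (le_max_left _ _).trans hY
  have hYe : Real.exp 10000 ≤ Y := (le_max_right _ _).trans hY
  have hL : 10000 ≤ Real.log Y := by
    rw [← Real.log_exp 10000]
    exact Real.log_le_log (Real.exp_pos _) hYe
  refine ⟨fun h K hK hKb => ?_, fun h h' => ?_⟩
  · obtain ⟨x, hx1, hx2, hx3⟩ := h₁ Y hY1 M (by exact_mod_cast hYM) A H K hA hH (Or.inl ⟨hK, hKb, h⟩)
    exact ⟨x, hx1, by exact_mod_cast hx2, fun k hk => isolated_of (hx3 k hk)⟩
  · have h5 : 16 * (H : ℝ) ^ 2 ≤ Real.log Y := by
      have h3 : 4 * (H : ℝ) ≤ √(Real.log Y) := by linarith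
      have h4 := Real.sq_sqrt (show 0 ≤ Real.log Y by linarith)
      have h5 : (4 * (H : ℝ)) ^ 2 ≤ (√(Real.log Y)) ^ 2 :=
        pow_le_pow_left₀ (by positivity) h3 2
      rw [h4] at h5
      linarith
    obtain ⟨x, hx1, hx2, hx3⟩ := h₁ Y hY1 M (by exact_mod_cast hYM) A H (Finset.Ico (0 : ℤ) H) hA hH
      (Or.inr ⟨rfl, h5, Or.inl (by linarith)⟩)
    refine ⟨x, hx1, by exact_mod_cast hx2, fun n hn1 hn2 => ?_⟩
    apply isolated_of
    have h6 := hx3 (n - x) (Finset.mem_Ico.2 ⟨by omega, by omega⟩)
    have h7 : x + (n - x) = n := by ring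
    rw [h7] at h6
    exact h6

end Pool.Agent.Results.MP_73869e_nt.ConsecutiveSquares
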