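import Mathlib
import Pool.Agent.N909.SQ.Sq

set_option autoImplicit false

/-!
# The number of primes in `(n², n² + (log₂ n)²]` in sequential random models of the primes

In every sequential random model of the primes (the integers are decided one after the other and the
conditional probability of choosing `n + 1` given the past is asymptotic to `1 / log n`; no
independence, no rate) we determine the exact set of limit points of `a(n) / log n`, where `a(n)` is
the number of chosen integers in `(n², n² + c log² n]`.  For the constant `c = 1 / log² 2` of the page,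
`a(n) ≥ (log n) / 200` for all large `n`, so the statement of the page holds for all large `n`; the
critical constant is `c = 2`.
-/

open MeasureTheory Filter
open scoped Topology

namespace Pool.Agent.Results.MP_73869e_nt.SequentialModels

/-- the number of elements `r` of `S` with `n² < r ≤ n² + c log² n` -/
noncomputable def count (S : Set ℕ) (c : ℝ) (n : ℕ) : ℕ :=
  {r : ℕ | r ∈ S ∧ n ^ 2 < r ∧ (r : ℝ) ≤ (n : ℝ) ^ 2 + c * Real.log n ^ 2}.ncard

/-- the number of elements `r` of `S` with `n² < r ≤ n² + (log₂ n)²` -/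
noncomputable def aa (S : Set ℕ) (n : ℕ) : ℕ :=
  {r : ℕ | r ∈ S ∧ n ^ 2 < r ∧ (r : ℝ) ≤ (n : ℝ) ^ 2 + Real.logb 2 n ^ 2}.ncard

/-- the rate function `v log (2v/c) - v + c/2` (`c/2` for `v = 0`) -/
noncomputable def rate (c v : ℝ) : ℝ := v * Real.log (2 * v / c) - v + c / 2

open Pool.Agent.R528.RM Pool.Agent.N740.HK Pool.Agent.N909.SQ

variable {Ω : Type} {A : ℕ → Set Ω}

lemma cnt_card (t j : ℕ) (ω : Ω) [DecidablePred fun r => ω ∈ A r] :
    cnt A t j ω = ((Finset.Ioc t (t + j)).filter (fun r => ω ∈ A r)).card := by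
  induction j with
  | zero => simp [cnt]
  | succ j ih =>
    have h1 : cnt A t (j + 1) ω = cnt A t j ω + if ω ∈ A (t + 1 + j) then 1 else 0 := by
      unfold cnt
      rw [Finset.sum_range_succ]
      congr 1
      split_ifs <;> rfl
    rw [h1, ih, Finset.card_filter, Finset.card_filter, ← add_assoc, Finset.sum_Ioc_succ_top (by omega)]
    congr 1
    rw [show t + 1 + j = t + j + 1 by ring]

lemma count_cnt (c : ℝ) (n : ℕ) (ω : Ω) :
    count {k | ω ∈ A k} c n = cnt A (n ^ 2) ⌊c * Real.log n ^ 2⌋₊ ω := by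
  classical
  rw [cnt_card, ← Set.ncard_coe_finset]
  unfold count
  congr 1
  ext r
  simp only [Set.mem_ofPred_eq, Finset.coe_filter, Finset.mem_Ioc]
  constructor
  · rintro ⟨h1, h2, h3⟩
    refine ⟨⟨h2, ?_⟩, h1⟩
    have h4 : ((r - n ^ 2 : ℕ) : ℝ) ≤ c * Real.log n ^ 2 := by
      rw [Nat.cast_sub h2.le]
      push_cast
      linarith
    have := Nat.le_floor h4
    omega
  · rintro ⟨⟨h2, h3⟩, h1⟩
    refine ⟨h1, h2, ?_⟩
    by_cases hc : 0 ≤ c * Real.log n ^ 2
    · have h4 := Nat.floor_le hc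
      have h5 : (r : ℝ) ≤ ((n ^ 2 + ⌊c * Real.log n ^ 2⌋₊ : ℕ) : ℝ) := by exact_mod_cast h3
      push_cast at h5
      linarith
    · rw [Nat.floor_of_nonpos (by linarith)] at h3
      omega

lemma rate_II {c : ℝ} (hc : 0 < c) (v : ℝ) : rate c v = c / 2 * II (2 * v / c) := by
  unfold rate II
  field_simp

lemma II_cont : Continuous II := by
  have : II = fun s => s * Real.log s - s + 1 := rfl
  rw [this]
  exact (Real.continuous_mul_log.sub continuous_id).add continuous_const

lemma II_one : II 1 = 0 := by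
  unfold II
  rw [Real.log_one]
  ring

lemma II_between {s w : ℝ} (hs : 0 ≤ s) (h : (s < w ∧ w < 1) ∨ (1 < w ∧ w < s)) : II w < II s := by
  have hs1 : s ≠ 1 := by
    intro h1
    rcases h with ⟨a, b⟩ | ⟨a, b⟩ <;> linarith
  obtain ⟨t, ht0, ht1, hw⟩ : ∃ t : ℝ, 0 < t ∧ t < 1 ∧ w = (1 - t) * s + t * 1 := by
    refine ⟨(w - s) / (1 - s), ?_, ?_, ?_⟩
    · rcases h with ⟨a, b⟩ | ⟨a, b⟩
      · exact div_pos (by linarith) (by linarith)
      · exact div_pos_of_neg_of_neg (by linarith) (by linarith)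
    · rcases h with ⟨a, b⟩ | ⟨a, b⟩
      · rw [div_lt_one (by linarith)]; linarith
      · rw [div_lt_one_of_neg (by linarith)]; linarith
    · have : (1 : ℝ) - s ≠ 0 := sub_ne_zero.2 (Ne.symm hs1)
      field_simp
      ring
  have h1 := Real.strictConvexOn_mul_log.2 (Set.mem_Ici.2 hs) (Set.mem_Ici.2 (zero_le_one : (0 : ℝ) ≤ 1))
    hs1 (show 0 < 1 - t by linarith) ht0 (by ring)
  simp only [smul_eq_mul, Real.log_one, mul_zero, add_zero] at h1
  have h2 : II s ≥ 0 := by
    unfold II
    rcases hs.eq_or_lt with h | h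
    · rw [← h]; norm_num
    · have h3 := Real.one_sub_inv_le_log_of_pos h
      have h4 : s * (1 - s⁻¹) ≤ s * Real.log s := mul_le_mul_of_nonneg_left h3 hs
      have h5 : s * (1 - s⁻¹) = s - 1 := by field_simp
      linarith
  have h6 : II w < (1 - t) * II s := by
    unfold II
    rw [hw]
    have h7 : (1 - t) * s + t * 1 = (1 - t) * s + t := by ring
    rw [h7] at h1 ⊢
    nlinarith
  nlinarith

lemma tendsto_z : Tendsto (fun n : ℕ => Real.log n) atTop atTop :=
  Real.tendsto_log_atTop.comp tendsto_natCast_atTop_atTop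

/-- the limit points, for a sequence with the exact counts and the tail bounds -/
lemma cluster (u : ℕ → ℕ) {c : ℝ} (hc : 0 < c)
    (hh : ∀ s : ℚ, 0 < s → c / 2 * II s < 1 → ∃ᶠ n : ℕ in atTop, u n = ⌊(s : ℝ) * (c / 2) * Real.log n⌋₊)
    (hup : ∀ s : ℚ, 1 < s → 1 < c / 2 * II s → ∀ᶠ n : ℕ in atTop, (u n : ℝ) < s * (c / 2) * Real.log n)
    (hlo : ∀ s : ℚ, 0 < s → s < 1 → 1 < c / 2 * II s → ∀ᶠ n : ℕ in atTop, s * (c / 2) * Real.log n < u n)
    (v : ℝ) (hv : 0 ≤ v) :
    MapClusterPt v atTop (fun n => (u n : ℝ) / Real.log n) ↔ rate c v ≤ 1 := by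
  rw [rate_II hc]
  set s : ℝ := 2 * v / c with hs
  have hs0 : 0 ≤ s := by rw [hs]; positivity
  have hvs : v = s * (c / 2) := by
    rw [hs]
    field_simp
  constructor
  · intro hcl
    by_contra hcon
    push Not at hcon
    have hopen : IsOpen {x : ℝ | 1 < c / 2 * II x} :=
      isOpen_lt continuous_const (continuous_const.mul II_cont)
    obtain ⟨η, hη, hball⟩ := Metric.isOpen_iff.1 hopen s hcon
    rcases lt_trichotomy s 1 with h | h | h
    · obtain ⟨q, hq1, hq2⟩ := exists_rat_btwn (show s < min (s + η) 1 from lt_min (by linarith) h)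
      have hq3 : (q : ℝ) ∈ Metric.ball s η := by
        rw [Metric.mem_ball, Real.dist_eq, abs_lt]
        constructor <;> linarith [min_le_left (s + η) 1]
      have hq4 : (q : ℝ) < 1 := hq2.trans_le (min_le_right _ _)
      have hq0 : (0 : ℝ) < q := lt_of_le_of_lt hs0 hq1
      have h1 := hlo q (by exact_mod_cast hq0) (by exact_mod_cast hq4) (hball hq3)
      have h2 := mapClusterPt_iff_frequently.1 hcl (Set.Iio (q * (c / 2))) (Iio_mem_nhds (by
        rw [hvs]
        exact mul_lt_mul_of_pos_right hq1 (by linarith)))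
      obtain ⟨n, hn1, hn2, hn3⟩ := (h2.and_eventually (h1.and (tendsto_z.eventually_gt_atTop 0))).exists
      have hn1 : (u n : ℝ) / Real.log n < q * (c / 2) := hn1
      rw [div_lt_iff₀ hn3] at hn1
      linarith
    · rw [h, II_one] at hcon
      linarith
    · obtain ⟨q, hq1, hq2⟩ := exists_rat_btwn (show max (s - η) 1 < s from max_lt (by linarith) h)
      have hq3 : (q : ℝ) ∈ Metric.ball s η := by
        rw [Metric.mem_ball, Real.dist_eq, abs_lt]
        constructor <;> linarith [le_max_left (s - η) 1]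
      have hq4 : (1 : ℝ) < q := lt_of_le_of_lt (le_max_right _ _) hq1
      have h1 := hup q (by exact_mod_cast hq4) (hball hq3)
      have h2 := mapClusterPt_iff_frequently.1 hcl (Set.Ioi (q * (c / 2))) (Ioi_mem_nhds (by
        rw [hvs]
        exact mul_lt_mul_of_pos_right hq2 (by linarith)))
      obtain ⟨n, hn1, hn2, hn3⟩ := (h2.and_eventually (h1.and (tendsto_z.eventually_gt_atTop 0))).exists
      have hn1 : q * (c / 2) < (u n : ℝ) / Real.log n := hn1
      rw [lt_div_iff₀ hn3] at hn1
      linarith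
  · intro hr
    rw [mapClusterPt_iff_frequently]
    intro U hU
    obtain ⟨ε, hε, hball⟩ := Metric.mem_nhds_iff.1 hU
    -- a rational near `s` with a strict inequality
    obtain ⟨q, hq0, hq1, hq2⟩ : ∃ q : ℚ, (0 : ℝ) < q ∧ |(q : ℝ) - s| < ε / c ∧ c / 2 * II q < 1 := by
      rcases lt_trichotomy s 1 with h | h | h
      · obtain ⟨q, hq1, hq2⟩ := exists_rat_btwn (show s < min (s + ε / c) 1 from lt_min (by linarith [div_pos hε hc]) h)
        refine ⟨q, lt_of_le_of_lt hs0 hq1, ?_, ?_⟩
        · rw [abs_lt]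
          constructor <;> linarith [min_le_left (s + ε / c) 1, div_pos hε hc]
        · have := II_between hs0 (Or.inl ⟨hq1, hq2.trans_le (min_le_right _ _)⟩)
          have h3 : c / 2 * II q < c / 2 * II s := mul_lt_mul_of_pos_left this (by linarith)
          linarith
      · refine ⟨1, by norm_num, ?_, ?_⟩
        · rw [h]
          simp only [Rat.cast_one, sub_self, abs_zero]
          positivity
        · rw [Rat.cast_one, II_one]
          norm_num
      · obtain ⟨q, hq1, hq2⟩ := exists_rat_btwn (show max (s - ε / c) 1 < s from max_lt (by linarith [div_pos hε hc]) h)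
        refine ⟨q, lt_of_lt_of_le (by linarith) ((le_max_right _ _).trans hq1.le), ?_, ?_⟩
        · rw [abs_lt]
          constructor <;> linarith [le_max_left (s - ε / c) 1, div_pos hε hc]
        · have := II_between hs0 (Or.inr ⟨lt_of_le_of_lt (le_max_right _ _) hq1, hq2⟩)
          have h3 : c / 2 * II q < c / 2 * II s := mul_lt_mul_of_pos_left this (by linarith)
          linarith
    have h1 := hh q (by exact_mod_cast hq0) hq2
    refine (h1.and_eventually ((tendsto_z.eventually_gt_atTop (2 / ε)).and (tendsto_z.eventually_gt_atTop 0))).mono ?_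
    rintro n ⟨hn1, hn2, hn3⟩
    apply hball
    rw [Metric.mem_ball, Real.dist_eq, hn1, hvs]
    set z := Real.log n
    set w := (q : ℝ) * (c / 2) with hw
    have hw0 : 0 < w := by positivity
    have g1 : (⌊w * z⌋₊ : ℝ) ≤ w * z := Nat.floor_le (by positivity)
    have g2 : w * z - 1 ≤ ⌊w * z⌋₊ := (Nat.sub_one_lt_floor _).le
    have g3 : (⌊w * z⌋₊ : ℝ) / z ≤ w := by
      rw [div_le_iff₀ hn3]
      exact g1
    have g4 : w - 1 / z ≤ (⌊w * z⌋₊ : ℝ) / z := by
      rw [le_div_iff₀ hn3]
      have : (w - 1 / z) * z = w * z - 1 := by field_simp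
      linarith
    have g5 : 1 / z < ε / 2 := by
      rw [div_lt_iff₀ hn3]
      rw [div_lt_iff₀ hε] at hn2
      linarith
    have g6 : |w - s * (c / 2)| < ε / 2 := by
      have : w - s * (c / 2) = (q - s) * (c / 2) := by rw [hw]; ring
      rw [this, abs_mul, abs_of_pos (show 0 < c / 2 by linarith)]
      calc |(q : ℝ) - s| * (c / 2) < ε / c * (c / 2) := mul_lt_mul_of_pos_right hq1 (by linarith)
        _ = ε / 2 := by field_simp
    have g7 := abs_lt.1 g6
    rw [abs_lt]
    constructor <;> linarith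

lemma num : 1 < 1 / Real.log 2 ^ 2 / 2 * II (1 / 200) := by
  have h1 := Real.log_two_lt_d9
  have h0 := Real.log_two_gt_d9
  have h2 : Real.log 2 ^ 2 < 0.480453015 := by nlinarith
  have h3 : (0 : ℝ) < Real.log 2 ^ 2 := by positivity
  have h4 : 1.0406 < 1 / Real.log 2 ^ 2 / 2 := by
    rw [div_div, lt_div_iff₀ (by positivity)]
    nlinarith
  have h5 : Real.log 200 ≤ 8 * Real.log 2 := by
    rw [show (8 : ℝ) * Real.log 2 = Real.log (2 ^ 8) by rw [Real.log_pow]; norm_num]
    exact Real.log_le_log (by norm_num) (by norm_num)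
  have h6 : 0.967 < II (1 / 200) := by
    unfold II
    rw [one_div, Real.log_inv]
    linarith
  nlinarith

end Pool.Agent.Results.MP_73869e_nt.SequentialModels

open Pool.Agent.Results.MP_73869e_nt.SequentialModels Pool.Agent.R528.RM Pool.Agent.N740.HK

/-- Let `A n` be the event that `n` belongs to a random set adapted to a filtration `ℱ`, and let the
conditional probability of `A (n + 1)` given `ℱ n`, times `log n`, tend to `1` almost surely.
(1) For every `c > 0`, almost surely the limit points `v ≥ 0` of `count n / log n`, where `count n`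
is the number of chosen `r` with `n² < r ≤ n² + c log² n`, are exactly the solutions of
`v log (2v/c) - v + c/2 ≤ 1`.  (2) For `c < 2` almost surely `count n = 0` for infinitely many `n`,
for `c > 2` almost surely `count n > 0` for all large `n`.  (3) Almost surely the number of chosen `r`
with `n² < r ≤ n² + (log₂ n)²` is at least `(log n) / 200` for all large `n`. -/
theorem Pool.Agent.Results.MP_73869e_nt.SequentialModels.result
    {Ω : Type} [mΩ : MeasurableSpace Ω] (μ : Measure Ω) [IsProbabilityMeasure μ]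
    (ℱ : Filtration ℕ mΩ) (A : ℕ → Set Ω) (hA : ∀ n, MeasurableSet[ℱ n] (A n))
    (hd : ∀ᵐ ω ∂μ, Tendsto (fun n : ℕ =>
      (μ[(A (n + 1)).indicator (fun _ => (1 : ℝ)) | ℱ n]) ω * Real.log n) atTop (𝓝 1)) :
    (∀ c : ℝ, 0 < c → ∀ᵐ ω ∂μ, ∀ v : ℝ, 0 ≤ v →
      (MapClusterPt v atTop (fun n => (count {k | ω ∈ A k} c n : ℝ) / Real.log n) ↔ rate c v ≤ 1)) ∧
    (∀ c : ℝ, 0 < c → c < 2 → ∀ᵐ ω ∂μ, ∃ᶠ n in atTop, count {k | ω ∈ A k} c n = 0) ∧
    (∀ c : ℝ, 2 < c → ∀ᵐ ω ∂μ, ∀ᶠ n in atTop, 0 < count {k | ω ∈ A k} c n) ∧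
    (∀ᵐ ω ∂μ, ∀ᶠ n : ℕ in atTop, Real.log n / 200 ≤ aa {k | ω ∈ A k} n) := by
  have hlo : ∀ c : ℝ, 0 < c → ∀ᵐ ω ∂μ, ∀ s : ℚ, 0 < s → s < 1 → 1 < c / 2 * II s →
      ∀ᶠ n : ℕ in atTop, s * (c / 2) * Real.log n < (count {k | ω ∈ A k} c n : ℝ) := by
    intro c hc
    rw [ae_all_iff]
    intro s
    by_cases h : 0 < s ∧ s < 1 ∧ 1 < c / 2 * II s
    · obtain ⟨h1, h2, h3⟩ := h
      have h1' : (0 : ℝ) < s := by exact_mod_cast h1
      have h2' : (s : ℝ) < 1 := by exact_mod_cast h2
      filter_upwards [Pool.Agent.N909.SQ.misses (μ := μ) (ℱ := ℱ) hA hd hc h1' h3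
        (fun n => {k | (k : ℝ) ≤ s * (c / 2) * Real.log n}) (fun n k hk => by
          rw [← Real.rpow_natCast]
          exact Real.rpow_le_rpow_of_exponent_ge h1' h2'.le hk)] with ω hω _ _ _
      filter_upwards [hω] with n hn
      rw [count_cnt]
      exact not_le.1 hn
    · exact Eventually.of_forall fun ω g1 g2 g3 => absurd ⟨g1, g2, g3⟩ h
  have hup : ∀ c : ℝ, 0 < c → ∀ᵐ ω ∂μ, ∀ s : ℚ, 1 < s → 1 < c / 2 * II s →
      ∀ᶠ n : ℕ in atTop, (count {k | ω ∈ A k} c n : ℝ) < s * (c / 2) * Real.log n := by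
    intro c hc
    rw [ae_all_iff]
    intro s
    by_cases h : 1 < s ∧ 1 < c / 2 * II s
    · obtain ⟨h1, h3⟩ := h
      have h1' : (1 : ℝ) < s := by exact_mod_cast h1
      filter_upwards [Pool.Agent.N909.SQ.misses (μ := μ) (ℱ := ℱ) hA hd hc (by linarith) h3
        (fun n => {k | s * (c / 2) * Real.log n ≤ (k : ℝ)}) (fun n k hk => by
          rw [← Real.rpow_natCast]
          exact Real.rpow_le_rpow_of_exponent_le h1'.le hk)] with ω hω _ _
      filter_upwards [hω] with n hn
      rw [count_cnt]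
      exact not_le.1 hn
    · exact Eventually.of_forall fun ω g1 g3 => absurd ⟨g1, g3⟩ h
  have hh : ∀ c : ℝ, 0 < c → ∀ᵐ ω ∂μ, ∀ s : ℚ, 0 < s → c / 2 * II s < 1 →
      ∃ᶠ n : ℕ in atTop, count {k | ω ∈ A k} c n = ⌊(s : ℝ) * (c / 2) * Real.log n⌋₊ := by
    intro c hc
    rw [ae_all_iff]
    intro s
    by_cases h : 0 < s ∧ c / 2 * II s < 1
    · obtain ⟨h1, h3⟩ := h
      have h1' : (0 : ℝ) < s := by exact_mod_cast h1
      have h4 : Pool.Agent.N909.SQ.rate c (s * (c / 2)) < 1 := by
        have h5 := rate_II hc (s * (c / 2))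
        have h6 : 2 * ((s : ℝ) * (c / 2)) / c = s := by field_simp
        rw [h6] at h5
        have h7 : Pool.Agent.N909.SQ.rate c (s * (c / 2)) = rate c (s * (c / 2)) := rfl
        rw [h7, h5]
        exact h3
      filter_upwards [Pool.Agent.N909.SQ.hits (μ := μ) (ℱ := ℱ) hA hd hc (by positivity) h4] with ω hω _ _
      refine hω.mono fun n hn => ?_
      rw [count_cnt]
      exact hn
    · exact Eventually.of_forall fun ω g1 g3 => absurd ⟨g1, g3⟩ h
  have h1 : ∀ c : ℝ, 0 < c → ∀ᵐ ω ∂μ, ∀ v : ℝ, 0 ≤ v →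
      (MapClusterPt v atTop (fun n => (count {k | ω ∈ A k} c n : ℝ) / Real.log n) ↔ rate c v ≤ 1) := by
    intro c hc
    filter_upwards [hlo c hc, hup c hc, hh c hc] with ω g1 g2 g3 v hv
    exact cluster _ hc g3 g2 g1 v hv
  refine ⟨h1, ?_, ?_, ?_⟩
  · intro c hc hc2
    have hε : 0 < min 1 (2 - c) := lt_min one_pos (by linarith)
    filter_upwards [sq_lower (μ := μ) (ℱ := ℱ) hA hd hε (min_le_left _ _)] with ω hω
    refine hω.mono fun n hn => ?_
    unfold count
    rw [Set.ncard_eq_zero (Set.Finite.subset (Set.finite_Iic (⌊(n : ℝ) ^ 2 + c * Real.log n ^ 2⌋₊)) (fun r hr => Nat.le_floor hr.2.2))]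
    rw [Set.eq_empty_iff_forall_notMem]
    rintro r ⟨h2, h3, h4⟩
    refine hn r h3 (h4.trans ?_) h2
    have : c ≤ 2 - min 1 (2 - c) := by linarith [min_le_right 1 (2 - c)]
    have h5 : c * Real.log n ^ 2 ≤ (2 - min 1 (2 - c)) * Real.log n ^ 2 := mul_le_mul_of_nonneg_right this (by positivity)
    linarith
  · intro c hc
    filter_upwards [h1 c (by linarith)] with ω hω
    by_contra hcon
    rw [not_eventually] at hcon
    have h2 : MapClusterPt (0 : ℝ) atTop (fun n => (count {k | ω ∈ A k} c n : ℝ) / Real.log n) := by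
      rw [mapClusterPt_iff_frequently]
      intro U hU
      refine hcon.mono fun n hn => ?_
      have h3 : count {k | ω ∈ A k} c n = 0 := by omega
      rw [h3, Nat.cast_zero, zero_div]
      exact mem_of_mem_nhds hU
    have h3 := (hω 0 le_rfl).1 h2
    unfold rate at h3
    simp only [zero_mul, mul_zero, sub_zero, zero_add] at h3
    linarith
  · have hl2 : 0 < Real.log 2 := Real.log_pos (by norm_num)
    have hc : 0 < 1 / Real.log 2 ^ 2 := by positivity
    filter_upwards [hlo _ hc] with ω hω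
    have h2 := hω (1 / 200) (by norm_num) (by norm_num) (by
      have := num
      push_cast
      exact this)
    filter_upwards [h2, tendsto_z.eventually_gt_atTop 0] with n hn hz
    have e1 : aa {k | ω ∈ A k} n = count {k | ω ∈ A k} (1 / Real.log 2 ^ 2) n := by
      unfold aa count
      congr 1
      ext r
      simp only [Set.mem_ofPred_eq]
      have : Real.logb 2 n ^ 2 = 1 / Real.log 2 ^ 2 * Real.log n ^ 2 := by
        unfold Real.logb
        rw [div_pow]
        ring
      rw [this]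
    rw [e1]
    refine le_trans ?_ hn.le
    have h3 : 1 ≤ 1 / Real.log 2 ^ 2 / 2 := by
      have h1 := Real.log_two_lt_d9
      have h0 := Real.log_two_gt_d9
      rw [div_div, le_div_iff₀ (by positivity)]
      nlinarith
    push_cast
    have h4 : Real.log n / 200 = 1 / 200 * 1 * Real.log n := by ring
    rw [h4]
    gcongr
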