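import Mathlib
import Pool.Agent.N735.CL.Sq4

/-!
# Primes between `n²` and `n² + (log_2 n)²`: the law for almost all patterns

The problem asks whether one of `n² + 1, n² + 2, ..., n² + k`, `k ≤ (log_2 n)²`, is a prime, for all large `n`. We
replace the pattern `1, 2, 3, ...` by an arbitrary pattern `h_1, h_2, ...` with entries in `{1, ..., N²}`,
where `n ≤ N`, and determine the longest waiting time over the squares for almost all patterns: it is
`2 log² N + O(log N)`. Since `(log_2 N)² = 2.081... log² N` the statement of the problem holds, with a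
margin of four per cent, for almost all patterns: if `(log_2 n)²` is replaced by `c (log_2 n)²` the
threshold is `c = 2 (log 2)² = 0.9609...`.

The lower bound is a second moment argument for the number of the squares without primes among the
`n² + h_i`, with weights which take into account the residues of the pattern modulo the small primes. The
correlations depend on the singular series of `j² - i²`, and are controlled by the exponential moments
of its logarithm. The prime number theorem with an error term, the Hardy-Littlewood asymptotics for the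
number of the prime pairs with almost all differences and the upper bound sieve for prime pairs are from
the starting files.
-/

set_option autoImplicit false
set_option maxHeartbeats 1000000

namespace Pool.Agent.Results.MP_73869e_nt.SquaresForPatterns

open Finset Filter Topology

/-- the patterns of length `K` with entries in `{1, ..., X}` -/
def patterns (X K : ℕ) : Finset (Fin K → ℕ) := Fintype.piFinset fun _ => Icc 1 X

open Classical in
/-- the proportion of the patterns of length `K` with entries in `{1, ..., X}` which have the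
property `B` -/
noncomputable def proportion (X K : ℕ) (B : (Fin K → ℕ) → Prop) : ℝ :=
  (((patterns X K).filter B).card : ℝ) / (patterns X K).card

/-- the number of the primes `p` with `n² < p ≤ n² + (log_2 n)²` -/
noncomputable def a (n : ℕ) : ℕ :=
  Nat.primeCounting ⌊(n : ℝ) ^ 2 + Real.logb 2 n ^ 2⌋₊ - Nat.primeCounting (n ^ 2)

/-- one of `n² + h_i`, `i ≤ c (log_2 n)²`, is a prime (the entries of the pattern `h` are
`h_1 = h 0, h_2 = h 1, ...`) -/
def HasPrime (c : ℝ) {K : ℕ} (h : Fin K → ℕ) (n : ℕ) : Prop :=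
  ∃ i : Fin K, ((i : ℕ) : ℝ) + 1 ≤ c * Real.logb 2 n ^ 2 ∧ (n ^ 2 + h i).Prime

/-- the waiting time of `m`: the least index (counted from `1`) such that `m + h_i` is a prime,
infinity if there is none -/
noncomputable def wait {K : ℕ} (h : Fin K → ℕ) (m : ℕ) : ℕ∞ :=
  ⨅ i : Fin K, if (m + h i).Prime then (((i : ℕ) + 1 : ℕ) : ℕ∞) else ⊤

/-- the longest waiting time of the squares up to `N²` -/
noncomputable def maxWait {K : ℕ} (N : ℕ) (h : Fin K → ℕ) : ℕ∞ := ⨆ n ∈ Icc 1 N, wait h (n ^ 2)

/-- the number of the `i` with `i ≤ c (log_2 n)²` -/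
noncomputable def len (c : ℝ) (n : ℕ) : ℕ := ⌊c * Real.logb 2 n ^ 2⌋₊

lemma prop_eq {X K : ℕ} (B : (Fin K → ℕ) → Prop) : proportion X K B = Pool.Agent.N735.CL.PK X K B := by
  classical
  rw [Pool.Agent.N735.CL.PK_eq]
  unfold proportion patterns
  have h : ((Fintype.piFinset fun _ : Fin K => Icc 1 X).card : ℝ) = (X : ℝ) ^ K := by
    have := Pool.Agent.N735.CL.card_Om X K
    unfold Pool.Agent.N735.CL.Om at this
    rw [this]; push_cast; rfl
  rw [h]
  unfold Pool.Agent.N735.CL.Om
  congr!

lemma hasPrime_iff (c : ℝ) {K : ℕ} (h : Fin K → ℕ) (n : ℕ) :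
    HasPrime c h n ↔ ∃ i : Fin K, (i : ℕ) < Pool.Agent.N735.CL.len c n ∧ (n ^ 2 + h i).Prime := by
  unfold HasPrime Pool.Agent.N735.CL.len
  apply exists_congr
  intro i
  apply and_congr_left
  intro _
  rw [Nat.lt_iff_add_one_le, Nat.le_floor_iff' (by omega)]
  push_cast
  rfl

lemma pi_card (y : ℕ) : Nat.primeCounting y = ((Icc 1 y).filter (fun p : ℕ => p.Prime)).card := by
  exact_mod_cast Pool.Agent.N735.CL.pi_eq y

lemma interval (N n : ℕ) (hn : 1 ≤ n) (hnN : n ≤ N) :
    HasPrime 1 (fun i : Fin (len 1 N) => (i : ℕ) + 1) n ↔ 0 < a n := by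
  unfold HasPrime a
  rw [Nat.sub_pos_iff_lt, pi_card, pi_card]
  have hnn : 0 ≤ Real.logb 2 n ^ 2 := sq_nonneg _
  have hM : ∀ q : ℕ, q ≤ ⌊(n : ℝ) ^ 2 + Real.logb 2 n ^ 2⌋₊ ↔ (q : ℝ) ≤ (n : ℝ) ^ 2 + Real.logb 2 n ^ 2 := by
    intro q
    exact Nat.le_floor_iff (by positivity)
  constructor
  · rintro ⟨i, hi, hp⟩
    rw [one_mul] at hi
    apply card_lt_card
    rw [ssubset_iff_of_subset]
    · refine ⟨n ^ 2 + ((i : ℕ) + 1), ?_, ?_⟩
      · rw [mem_filter, mem_Icc]
        refine ⟨⟨by omega, ?_⟩, hp⟩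
        rw [hM]
        push_cast
        linarith
      · rw [mem_filter, mem_Icc]
        omega
    · intro q hq
      rw [mem_filter, mem_Icc] at hq ⊢
      refine ⟨⟨hq.1.1, hq.1.2.trans ?_⟩, hq.2⟩
      rw [hM]
      push_cast
      linarith
  · intro hlt
    by_contra hc
    push Not at hc
    apply absurd hlt
    rw [not_lt]
    apply card_le_card
    intro q hq
    rw [mem_filter, mem_Icc, hM] at hq
    rw [mem_filter, mem_Icc]
    refine ⟨⟨hq.1.1, ?_⟩, hq.2⟩
    by_contra hcon
    push Not at hcon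
    have h1 : ((q - n ^ 2 - 1 : ℕ) : ℝ) + 1 ≤ 1 * Real.logb 2 n ^ 2 := by
      have e : q = (q - n ^ 2 - 1) + 1 + n ^ 2 := by omega
      have e2 : (q : ℝ) = ((q - n ^ 2 - 1 : ℕ) : ℝ) + 1 + (n : ℝ) ^ 2 := by exact_mod_cast e
      linarith [hq.1.2]
    have hlt2 : q - n ^ 2 - 1 < len 1 N := by
      rw [Nat.lt_iff_add_one_le]
      unfold len
      apply Nat.le_floor
      push_cast
      refine h1.trans ?_
      apply mul_le_mul_of_nonneg_left _ (by norm_num)
      apply pow_le_pow_left₀
      · exact Real.logb_nonneg (by norm_num) (by exact_mod_cast hn)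
      · exact Real.logb_le_logb_of_le (by norm_num) (by exact_mod_cast hn) (by exact_mod_cast hnN)
    apply hc ⟨q - n ^ 2 - 1, hlt2⟩ h1
    have e : n ^ 2 + (q - n ^ 2 - 1 + 1) = q := by omega
    simp only
    rw [e]
    exact hq.2

/-- **Primes between `n²` and `n² + (log_2 n)²`: the law for almost all patterns.** -/
theorem result :
    -- the pattern of consecutive integers is the pattern of the problem
    (∀ N n : ℕ, 1 ≤ n → n ≤ N → (HasPrime 1 (fun i : Fin (len 1 N) => (i : ℕ) + 1) n ↔ 0 < a n)) ∧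
    -- the longest waiting time of the squares
    (∀ t : ℝ, 0 < t → ∃ C : ℝ, 0 < C ∧ ∀ᶠ N : ℕ in atTop, ∀ K : ℕ,
      2 * Real.log N ^ 2 + C * Real.log N ≤ K →
        proportion (N ^ 2) K (fun h => ¬ ∃ g : ℕ, maxWait N h = g ∧
          |(g : ℝ) - 2 * Real.log N ^ 2| ≤ C * Real.log N) ≤ t) ∧
    -- almost all patterns have primes for all `n` with `N ^ u ≤ n ≤ N`, if `c u > 2 (log 2)²`
    (∀ c u : ℝ, 0 < c → 2 * Real.log 2 ^ 2 < c * u → Tendsto (fun N : ℕ => proportion (N ^ 2) (len c N)
      (fun h => ∀ n ∈ Icc 1 N, (N : ℝ) ^ u ≤ n → HasPrime c h n)) atTop (𝓝 1)) ∧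
    -- almost no pattern has primes for all `n` with `N / 2 < n ≤ N`, if `c < 2 (log 2)²`
    (∀ c : ℝ, c < 2 * Real.log 2 ^ 2 → Tendsto (fun N : ℕ => proportion (N ^ 2) (len c N)
      (fun h => ∀ n ∈ Icc 1 N, N < 2 * n → HasPrime c h n)) atTop (𝓝 0)) := by
  refine ⟨interval, fun t ht => ?_, fun c u hc hcu => ?_, fun c hc => ?_⟩
  · obtain ⟨C, hC, h⟩ := Pool.Agent.N735.CL.sq_law t ht
    refine ⟨C, hC, ?_⟩
    filter_upwards [h] with N hN K hK
    rw [prop_eq]
    refine le_trans (Pool.Agent.N735.CL.PK_mono ?_) (hN K hK)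
    intro v _ hv hcon
    apply hv
    obtain ⟨g₁, g₂, h1, h2, h3, h4⟩ := hcon
    refine ⟨g₁, h1, ?_⟩
    have h5 : (g₂ : ℕ∞) ≤ g₁ := by
      rw [← h1, ← h2]
      exact iSup₂_le (fun n hn => le_iSup₂ (f := fun n (_ : n ∈ Icc 1 N) => Pool.Agent.N735.CL.wait v (n ^ 2)) n (mem_filter.1 hn).1)
    have h6 : (g₂ : ℝ) ≤ g₁ := by exact_mod_cast h5
    rw [abs_le]
    constructor <;> linarith
  · have h := Pool.Agent.N735.CL.sq_len_up c u hc hcu
    refine h.congr ?_
    intro N
    rw [prop_eq]
    simp_rw [hasPrime_iff]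
    rfl
  · have h := Pool.Agent.N735.CL.sq_len_lo c hc
    refine h.congr ?_
    intro N
    rw [prop_eq]
    simp_rw [hasPrime_iff]
    rfl

end Pool.Agent.Results.MP_73869e_nt.SquaresForPatterns
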